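import Pool.Agent.Helper54.PT.LocG
import Pool.Agent.Helper36.TW.C10C11

/-!
# TG module N3: the two Lagrangians at a node
-/

set_option autoImplicit false

namespace Pool.Agent.Helper7.TG

open Finset Module Pool.Agent.Helper43.TW Pool.Agent.Helper47.BSD Pool.Agent.Helper54.PT

section Lin

variable {ℓ : ℕ} [Fact ℓ.Prime] {ι : Type} [Fintype ι] [DecidableEq ι] {a : ι → ℕ} {i₀ : ι}

theorem exG_mkG' (ha : ¬ ℓ ∣ a i₀) {u : ι → ZMod ℓ × ZMod ℓ}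
    (hu : ∑ i, (a i : ZMod ℓ) • u i = 0) (i : ι) : exG a i₀ (mkG i₀ u) i = u i := by
  have h1 : ∑ j, (a j : ZMod ℓ) * (u j).1 = 0 := by
    have h := congrArg Prod.fst hu
    rw [Prod.fst_sum] at h
    exact h
  have h2 : ∑ j, (a j : ZMod ℓ) * (u j).2 = 0 := by
    have h := congrArg Prod.snd hu
    rw [Prod.snd_sum] at h
    exact h
  refine Prod.ext ?_ ?_
  · exact congrFun (C11_ext a i₀ ha (fun j => (u j).1) h1 (fun j => (u j.1).1) fun j => rfl) i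
  · exact congrFun (C11_ext a i₀ ha (fun j => (u j).2) h2 (fun j => (u j.1).2) fun j => rfl) i

theorem exG_add' (w w' : LSG ℓ i₀) (i : ι) :
    exG a i₀ (w + w') i = exG a i₀ w i + exG a i₀ w' i := by
  refine Prod.ext ?_ ?_
  · exact congrFun (ext_add a i₀ w.1 w'.1) i
  · exact congrFun (ext_add a i₀ w.2 w'.2) i

theorem exG_smul' (ha : ¬ ℓ ∣ a i₀) (c : ZMod ℓ) (w : LSG ℓ i₀) (i : ι) :
    exG a i₀ (c • w) i = c • exG a i₀ w i := by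
  refine Prod.ext ?_ ?_
  · exact congrFun (C11_ext_mul a i₀ ha c w.1) i
  · exact congrFun (C11_ext_mul a i₀ ha c w.2) i

theorem exG_sum' (ha : ¬ ℓ ∣ a i₀) (w : LSG ℓ i₀) : ∑ i, (a i : ZMod ℓ) • exG a i₀ w i = 0 := by
  refine Prod.ext ?_ ?_
  · rw [Prod.fst_sum]
    exact C11_ext_sum a i₀ ha w.1
  · rw [Prod.snd_sum]
    exact C11_ext_sum a i₀ ha w.2

end Lin

section Two

variable {ι : Type} [Fintype ι] [DecidableEq ι] {a : ι → ℕ} {i₀ : ι}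

theorem cast_one {n : ℕ} (h : ¬ 2 ∣ n) : (n : ZMod 2) = 1 := by
  have h1 : n % 2 = 1 := by omega
  have h2 : ((n % 2 : ℕ) : ZMod 2) = (n : ZMod 2) := ZMod.natCast_mod n 2
  rw [← h2, h1]
  rfl

theorem neg_two' (x : ZMod 2 × ZMod 2) : -x = x := by
  refine Prod.ext ?_ ?_
  · exact ZMod.neg_eq_self_mod_two x.1
  · exact ZMod.neg_eq_self_mod_two x.2

theorem add_self' (x : ZMod 2 × ZMod 2) : x + x = 0 := by
  refine Prod.ext ?_ ?_
  · exact CharTwo.add_self_eq_zero x.1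
  · exact CharTwo.add_self_eq_zero x.2

theorem sum_exG (ha : ∀ i, ¬ 2 ∣ a i) (w : LSG 2 i₀) : ∑ i, exG a i₀ w i = 0 := by
  rw [← exG_sum' (ha i₀) w]
  exact sum_congr rfl fun i _ => by rw [cast_one (ha i), one_smul]

theorem bG_two (ha : ∀ i, ¬ 2 ∣ a i) (w w' : LSG 2 i₀) :
    bG a i₀ w w' = ∑ i, pzG (exG a i₀ w i) (exG a i₀ w' i) := by
  unfold bG
  exact sum_congr rfl fun i _ => by rw [cast_one (ha i), one_mul]

/-- The subspace `U`. -/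
def UU (a : ι → ℕ) (i₀ : ι) (ha : ¬ 2 ∣ a i₀) (i₁ i₂ : ι) : Submodule (ZMod 2) (LSG 2 i₀) where
  carrier := {w | w.1 = 0 ∧ (exG a i₀ w i₁).2 = (exG a i₀ w i₂).2}
  add_mem' := by
    rintro w w' ⟨h1, h2⟩ ⟨h1', h2'⟩
    refine ⟨?_, ?_⟩
    · rw [Prod.fst_add, h1, h1', add_zero]
    · rw [exG_add', exG_add', Prod.snd_add, Prod.snd_add, h2, h2']
  zero_mem' := by
    refine ⟨rfl, ?_⟩
    show ext a i₀ 0 i₁ = ext a i₀ 0 i₂
    rw [ext_zero, ext_zero]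
  smul_mem' := by
    rintro c w ⟨h1, h2⟩
    refine ⟨?_, ?_⟩
    · rw [Prod.smul_fst, h1, smul_zero]
    · rw [exG_smul' ha, exG_smul' ha, Prod.smul_snd, Prod.smul_snd, h2]

theorem exG_UU {ha : ¬ 2 ∣ a i₀} {i₁ i₂ : ι} {w : LSG 2 i₀} (hw : w ∈ UU a i₀ ha i₁ i₂) (i : ι) :
    (exG a i₀ w i).1 = 0 := by
  show ext a i₀ w.1 i = 0
  rw [hw.1, ext_zero]

/-- The dimension of `U`. -/
theorem finrank_UU (ha : ¬ 2 ∣ a i₀) (i₁ i₂ : ι) :
    Fintype.card {j : ι // j ≠ i₀} ≤ finrank (ZMod 2) (UU a i₀ ha i₁ i₂) + 1 := by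
  have : Fact (Nat.Prime 2) := ⟨Nat.prime_two⟩
  let L : ({j : ι // j ≠ i₀} → ZMod 2) →ₗ[ZMod 2] ZMod 2 :=
    { toFun := fun z => ext a i₀ z i₁ - ext a i₀ z i₂
      map_add' := fun z z' => by
        rw [ext_add, Pi.add_apply, Pi.add_apply]
        ring
      map_smul' := fun c z => by
        have h : ext a i₀ (c • z) = fun i => c * ext a i₀ z i := C11_ext_mul a i₀ ha c z
        rw [h, RingHom.id_apply, smul_eq_mul]
        ring }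
  let I : (LinearMap.ker L) →ₗ[ZMod 2] (UU a i₀ ha i₁ i₂) :=
    { toFun := fun z => ⟨(0, z.1), rfl, sub_eq_zero.1 z.2⟩
      map_add' := fun z z' => by
        refine Subtype.ext (Prod.ext ?_ rfl)
        exact (add_zero (0 : {j : ι // j ≠ i₀} → ZMod 2)).symm
      map_smul' := fun c z => by
        refine Subtype.ext (Prod.ext ?_ rfl)
        exact (smul_zero c).symm }
  have hI : Function.Injective I := by
    intro z z' h
    exact Subtype.ext (congrArg (fun w : (UU a i₀ ha i₁ i₂) => w.1.2) h)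
  have h1 := LinearMap.finrank_le_finrank_of_injective hI
  have h2 := LinearMap.finrank_range_add_finrank_ker L
  have h3 : finrank (ZMod 2) (LinearMap.range L) ≤ 1 := by
    refine (Submodule.finrank_le _).trans ?_
    rw [finrank_self]
  rw [finrank_fintype_fun_eq_card] at h2
  omega

end Two

section LocSTwo

variable {k : Type} [NontriviallyNormedField k] [IsUltrametricDist k] [CompleteSpace k]
  {π : k} {ι : Type} [Fintype ι] [DecidableEq ι] {a : ι → ℕ}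
  {K : Type} [Field K] {φ : K →+* k} {f : Cl 2 k →+ ZMod 2 × ZMod 2} {e : ι → K}

omit [IsUltrametricDist k] [CompleteSpace k] in
/-- The classes of an element of `LocS`. -/
theorem exG_locS {hk : LF 2 π} (ha : ∀ i, ¬ 2 ∣ a i) (i₀ : ι) {D : K} {u : ι → Cl 2 k}
    (hu : PtData hk a (fun i => φ (D * e i)) u) (i : ι) :
    exG a i₀ (mkG i₀ fun i => f (u i)) i = f (u i) := by
  have : Fact (Nat.Prime 2) := ⟨Nat.prime_two⟩
  refine exG_mkG' (ha i₀) ?_ i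
  obtain ⟨i₁, ρ, n, h⟩ := hu
  have h1 := congrArg f h.rel
  rw [map_sum, map_zero] at h1
  rw [← h1]
  exact sum_congr rfl fun i _ => (ZMod.map_smul f (a i : ZMod 2) (u i)).symm

omit [IsUltrametricDist k] [CompleteSpace k] in
theorem norm_D {hk : LF 2 π} (hfo : ∀ x, (f x).1 = nu hk x) {D : K} (hD : D ≠ 0) {c : ZMod 2}
    (hDc : f (cl 2 (φ D)) = (0, c)) : ∃ s : ℤ, ‖φ D‖ = ‖π‖ ^ (2 * s) := by
  have h0 : φ D ≠ 0 := by
    rw [map_ne_zero]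
    exact hD
  obtain ⟨m, hm⟩ := hk.disc _ h0
  have h1 := nu_cl hk h0 hm
  rw [← hfo, hDc] at h1
  have h2 := (ZMod.intCast_zmod_eq_zero_iff_dvd m 2).1 h1.symm
  obtain ⟨s, rfl⟩ := h2
  exact ⟨s, hm⟩

variable {i₁ i₂ : ι}

omit [IsUltrametricDist k] [CompleteSpace k] in
/-- The first components of the elements of `LocS`. -/
theorem fst_locS {hk : LF 2 π} (ha : ∀ i, ¬ 2 ∣ a i) (hfo : ∀ x, (f x).1 = nu hk x)
    (he : ∀ i j, i ≠ j → e i ≠ e j) (i₀ : ι) (hne : i₁ ≠ i₂)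
    (h1 : ∀ i j, i ≠ j → s(i, j) ≠ s(i₁, i₂) → ‖φ (e i - e j)‖ = 1)
    (h2 : ‖φ (e i₁ - e i₂)‖ < 1)
    (hN1 : ∀ (E : ι → k) (w : ι → Cl 2 k) (s : ℤ), (∀ i j, i ≠ j → s(i, j) ≠ s(i₁, i₂) →
      ‖E i - E j‖ = ‖π‖ ^ (2 * s)) → ‖E i₁ - E i₂‖ < ‖π‖ ^ (2 * s) → E i₁ ≠ E i₂ →
      PtData hk a E w → ∀ i, i ≠ i₁ → i ≠ i₂ → nu hk (w i) = 0)
    {c : ZMod 2} {w : LSG 2 i₀} (hw : w ∈ LocS hk φ f a e i₀ c) :
    (∀ i, i ≠ i₁ → i ≠ i₂ → (exG a i₀ w i).1 = 0) ∧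
      (exG a i₀ w i₁).1 = (exG a i₀ w i₂).1 := by
  obtain ⟨D, u, hD, hDc, hu, rfl⟩ := hw
  obtain ⟨s, hs⟩ := norm_D hfo hD hDc
  have hpos : 0 < ‖π‖ ^ (2 * s) := zpow_pos hk.pos _
  have hsub : ∀ i j, φ (D * e i) - φ (D * e j) = φ D * φ (e i - e j) := by
    intro i j
    rw [← map_sub, ← map_mul]
    congr 1
    ring
  have hz : ∀ i, i ≠ i₁ → i ≠ i₂ → (exG a i₀ (mkG i₀ fun i => f (u i)) i).1 = 0 := by
    intro i hi1 hi2
    rw [exG_locS ha i₀ hu, hfo]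
    refine hN1 (fun i => φ (D * e i)) u s ?_ ?_ ?_ hu i hi1 hi2
    · intro i j hij hs'
      show ‖φ (D * e i) - φ (D * e j)‖ = _
      rw [hsub, norm_mul, h1 i j hij hs', hs, mul_one]
    · show ‖φ (D * e i₁) - φ (D * e i₂)‖ < _
      rw [hsub, norm_mul, hs]
      exact mul_lt_of_lt_one_right hpos h2
    · show φ (D * e i₁) ≠ φ (D * e i₂)
      rw [Ne, φ.injective.eq_iff, mul_right_inj' hD]
      exact he _ _ hne
  refine ⟨hz, ?_⟩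
  have h3 := congrArg Prod.fst (sum_exG ha (mkG i₀ fun i => f (u i)))
  rw [Prod.fst_sum, Fintype.sum_eq_add i₁ i₂ hne (fun i hi => hz i hi.1 hi.2)] at h3
  exact CharTwo.add_eq_zero.1 h3

theorem bG_UU (ha : ∀ i, ¬ 2 ∣ a i) (i₀ : ι) (hne : i₁ ≠ i₂) {w u : LSG 2 i₀}
    (hw : ∀ i, i ≠ i₁ → i ≠ i₂ → (exG a i₀ w i).1 = 0)
    (hw' : (exG a i₀ w i₁).1 = (exG a i₀ w i₂).1) (hu : u ∈ UU a i₀ (ha i₀) i₁ i₂) :
    bG a i₀ w u = 0 := by
  have h : ∀ i, pzG (exG a i₀ w i) (exG a i₀ u i) = (exG a i₀ w i).1 * (exG a i₀ u i).2 := by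
    intro i
    rw [pzG, exG_UU hu i, mul_zero, sub_zero]
  rw [bG_two ha, sum_congr rfl fun i _ => h i, Fintype.sum_eq_add i₁ i₂ hne
    (fun i hi => by rw [hw i hi.1 hi.2, zero_mul]), hw', hu.2]
  exact CharTwo.add_self_eq_zero _

theorem bG_swap (i₀ : ι) (w u : LSG 2 i₀) : bG a i₀ w u = -bG a i₀ u w := by
  unfold bG pzG
  rw [← sum_neg_distrib]
  exact sum_congr rfl fun i _ => by ring

theorem qG_UU (ha : ∀ i, ¬ 2 ∣ a i) (i₀ : ι) (hne : i₁ ≠ i₂) (g : ι → ZMod 2 × ZMod 2)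
    (hg : ∀ i, i ≠ i₁ → i ≠ i₂ → (g i).1 = 0) (hg' : (g i₁).1 = (g i₂).1) {u : LSG 2 i₀}
    (hu : u ∈ UU a i₀ (ha i₀) i₁ i₂) : qG a i₀ g u = 0 := by
  have h : ∀ i, (exG a i₀ u i).1 * (exG a i₀ u i).2 + pzG (exG a i₀ u i) (g i) =
      -((exG a i₀ u i).2 * (g i).1) := by
    intro i
    rw [pzG, exG_UU hu i, zero_mul, zero_mul, zero_add, zero_sub]
  rw [qG, sum_congr rfl fun i _ => h i, Fintype.sum_eq_add i₁ i₂ hne
    (fun i hi => by rw [hg i hi.1 hi.2, mul_zero, neg_zero]), hg', hu.2]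
  exact CharTwo.add_self_eq_zero _

omit [IsUltrametricDist k] [CompleteSpace k] in
/-- The two special elements are not orthogonal. -/
theorem special {hk : LF 2 π} (ha : ∀ i, ¬ 2 ∣ a i) (hs : ¬ 2 ∣ ∑ i, a i)
    (hfo : ∀ x, (f x).1 = nu hk x) (he : ∀ i j, i ≠ j → e i ≠ e j) (i₀ : ι) (hne : i₁ ≠ i₂)
    (h1 : ∀ i j, i ≠ j → s(i, j) ≠ s(i₁, i₂) → ‖φ (e i - e j)‖ = 1)
    (hcl : ∀ c : ZMod 2, ∃ D : K, D ≠ 0 ∧ f (cl 2 (φ D)) = (0, c))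
    (hN2 : ∀ (D : K), D ≠ 0 → ∀ c : ZMod 2, f (cl 2 (φ D)) = (0, c) →
      ∑ j ∈ (univ.erase i₁).erase i₂, f (cl 2 (φ (D * e i₁ - D * e j))) = 0 →
      PtData hk a (fun i => φ (D * e i)) (fun j => if j = i₁ ∨ j = i₂ then cl 2 π else
        cl 2 (φ (D * e i₁ - D * e j))))
    (hL4 : ∀ (D : K), D ≠ 0 → PtData hk a (fun i => φ (D * e i))
      (fun j => cl 2 (tt 2 a (fun i => φ (D * e i)) i₁ j))) :
    ∃ c : ZMod 2, ∃ w ∈ LocS hk φ f a e i₀ c, ∃ w' ∈ LocS hk φ f a e i₀ (c + 1),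
      bG a i₀ w w' = 1 := by
  classical
  set T : Finset ι := (univ.erase i₁).erase i₂ with hT
  have hTm : ∀ j, j ∈ T ↔ j ≠ i₂ ∧ j ≠ i₁ := by
    intro j
    rw [hT, mem_erase, mem_erase]
    simp
  have hcard : (T.card : ZMod 2) = 1 := by
    have hc1 : ((∑ i, a i : ℕ) : ZMod 2) = (Fintype.card ι : ZMod 2) := by
      rw [Nat.cast_sum, sum_congr rfl fun i _ => cast_one (ha i)]
      simp
    have hc2 : T.card + 2 = Fintype.card ι := by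
      rw [hT, card_erase_of_mem (by rw [mem_erase]; exact ⟨hne.symm, mem_univ _⟩),
        card_erase_of_mem (mem_univ _)]
      have := Fintype.one_lt_card_iff.2 ⟨i₁, i₂, hne⟩
      rw [card_univ]
      omega
    have hc3 := cast_one hs
    rw [hc1, ← hc2] at hc3
    push_cast at hc3
    rw [show (2 : ZMod 2) = 0 from rfl, add_zero] at hc3
    exact hc3
  -- the classes of the differences
  have hd0 : ∀ j ∈ T, (f (cl 2 (φ (e i₁ - e j)))).1 = 0 := by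
    intro j hj
    rw [hfo]
    refine nu_unit hk (h1 i₁ j ((hTm j).1 hj).2.symm ?_)
    intro h
    rcases Sym2.eq_iff.1 h with h | h
    · exact ((hTm j).1 hj).1 h.2
    · exact hne h.1
  set cA : ZMod 2 := ∑ j ∈ T, (f (cl 2 (φ (e i₁ - e j)))).2 with hcA
  have hmul : ∀ (D : K) (hD : D ≠ 0) (j : ι) (hj : j ≠ i₁), f (cl 2 (φ (D * e i₁ - D * e j))) =
      f (cl 2 (φ D)) + f (cl 2 (φ (e i₁ - e j))) := by
    intro D hD j hj
    rw [← map_add, ← cl_mul (by rwa [map_ne_zero]) (by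
      rw [map_ne_zero]
      exact sub_ne_zero.2 (he _ _ hj.symm)), ← map_mul]
    congr 3
    ring
  have hsum : ∀ (D : K) (hD : D ≠ 0) (c : ZMod 2) (hDc : f (cl 2 (φ D)) = (0, c)),
      ∑ j ∈ T, f (cl 2 (φ (D * e i₁ - D * e j))) = (0, c + cA) := by
    intro D hD c hDc
    rw [sum_congr rfl fun j hj => hmul D hD j ((hTm j).1 hj).2, sum_add_distrib, sum_const, hDc]
    refine Prod.ext ?_ ?_
    · rw [Prod.fst_add, Prod.fst_sum, sum_congr rfl hd0, sum_const_zero, Prod.smul_fst, smul_zero,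
        add_zero]
    · rw [Prod.snd_add, Prod.snd_sum, Prod.smul_snd, nsmul_eq_mul, hcard, one_mul]
  obtain ⟨Ds, hDs, hDsc⟩ := hcl cA
  obtain ⟨Dn, hDn, hDnc⟩ := hcl (cA + 1)
  have hps := hN2 Ds hDs cA hDsc (by
    rw [hsum Ds hDs cA hDsc, CharTwo.add_self_eq_zero]
    rfl)
  have hpt := hL4 Dn hDn
  refine ⟨cA, _, ⟨Ds, _, hDs, hDsc, hps, rfl⟩, _, ⟨Dn, _, hDn, hDnc, hpt, rfl⟩, ?_⟩
  set us : ι → Cl 2 k := fun j => if j = i₁ ∨ j = i₂ then cl 2 π else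
    cl 2 (φ (Ds * e i₁ - Ds * e j)) with hus
  set ut : ι → Cl 2 k := fun j => cl 2 (tt 2 a (fun i => φ (Dn * e i)) i₁ j) with hut
  have ht : ∀ j, j ≠ i₁ → f (ut j) = f (cl 2 (φ (Dn * e i₁ - Dn * e j))) := by
    intro j hj
    rw [hut]
    show f (cl 2 (tt 2 a (fun i => φ (Dn * e i)) i₁ j)) = _
    rw [tt, if_neg hj, map_sub]
  have hterm : ∀ i, i ≠ i₁ ∧ i ≠ i₂ → pzG (f (us i)) (f (ut i)) = 0 := by
    intro i hi
    have hiT : i ∈ T := (hTm i).2 ⟨hi.2, hi.1⟩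
    have hs1 : (f (us i)).1 = 0 := by
      rw [hus]
      show (f (if i = i₁ ∨ i = i₂ then cl 2 π else cl 2 (φ (Ds * e i₁ - Ds * e i)))).1 = 0
      rw [if_neg (by rintro (h | h); exacts [hi.1 h, hi.2 h]), hmul Ds hDs i hi.1, Prod.fst_add,
        hDsc, hd0 i hiT, add_zero]
    have ht1 : (f (ut i)).1 = 0 := by
      rw [ht i hi.1, hmul Dn hDn i hi.1, Prod.fst_add, hDnc, hd0 i hiT, add_zero]
    rw [pzG, hs1, ht1, zero_mul, mul_zero, sub_zero]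
  have hX : f (ut i₁) + f (ut i₂) = (0, 1) := by
    have h3 := sum_exG ha (mkG i₀ fun i => f (ut i))
    rw [sum_congr rfl fun i _ => exG_locS ha i₀ hpt i] at h3
    rw [← add_sum_erase _ _ (mem_univ i₁),
      ← add_sum_erase (univ.erase i₁) _ (show i₂ ∈ univ.erase i₁ by
        rw [mem_erase]; exact ⟨hne.symm, mem_univ _⟩), ← hT,
      sum_congr rfl fun j hj => ht j ((hTm j).1 hj).2, hsum Dn hDn _ hDnc, ← add_assoc] at h3
    rw [eq_neg_of_add_eq_zero_left h3, neg_two']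
    refine Prod.ext rfl ?_
    show cA + 1 + cA = 1
    linear_combination (CharTwo.add_self_eq_zero cA)
  rw [bG_two ha, sum_congr rfl fun i _ => by rw [exG_locS ha i₀ hps i, exG_locS ha i₀ hpt i],
    Fintype.sum_eq_add i₁ i₂ hne hterm]
  have hu1 : us i₁ = cl 2 π := by
    rw [hus]
    show (if i₁ = i₁ ∨ i₁ = i₂ then cl 2 π else _) = _
    rw [if_pos (Or.inl rfl)]
  have hu2 : us i₂ = cl 2 π := by
    rw [hus]
    show (if i₂ = i₁ ∨ i₂ = i₂ then cl 2 π else _) = _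
    rw [if_pos (Or.inr rfl)]
  have hpi : (f (cl 2 π)).1 = 1 := by
    rw [hfo, nu_cl hk (pi_ne hk) (m := 1) (zpow_one _).symm, Int.cast_one]
  have hadd : pzG (f (cl 2 π)) (f (ut i₁)) + pzG (f (cl 2 π)) (f (ut i₂)) =
      pzG (f (cl 2 π)) (f (ut i₁) + f (ut i₂)) := by
    unfold pzG
    rw [Prod.fst_add, Prod.snd_add]
    ring
  rw [hu1, hu2, hadd, hX, pzG, hpi, mul_zero, sub_zero, mul_one]

end LocSTwo

end Pool.Agent.Helper7.TG

namespace Pool.Agent.Helper54.PT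

open Finset Module Pool.Agent.Helper43.TW Pool.Agent.Helper47.BSD Pool.Agent.Helper7.TG

section LocSTwo

variable {k : Type} [NontriviallyNormedField k] [IsUltrametricDist k] [CompleteSpace k]
  {π : k} {ι : Type} [Fintype ι] [DecidableEq ι] {a : ι → ℕ}
  {K : Type} [Field K] {φ : K →+* k} {f : Cl 2 k →+ ZMod 2 × ZMod 2} {e : ι → K}

omit [IsUltrametricDist k] [CompleteSpace k] in
/-- N3: the two Lagrangians at a node. The last arguments are the statements N1, N2, L4, S1, S2, S5,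
E2, E3. -/
theorem exists_M_node (hk : LF 2 π) (ha : ∀ i, ¬ 2 ∣ a i) (hs : ¬ 2 ∣ ∑ i, a i)
    (hc : cl 2 (-1 : k) = 0) (_hf : FC hk f) (hfo : ∀ x, (f x).1 = nu hk x)
    (he : ∀ i j, i ≠ j → e i ≠ e j) (i₀ : ι) {i₁ i₂ : ι} (hne : i₁ ≠ i₂)
    (h1 : ∀ i j, i ≠ j → s(i, j) ≠ s(i₁, i₂) → ‖φ (e i - e j)‖ = 1)
    (h2 : ‖φ (e i₁ - e i₂)‖ < 1)
    (hcl : ∀ c : ZMod 2, ∃ D : K, D ≠ 0 ∧ f (cl 2 (φ D)) = (0, c))
    (hN1 : ∀ (E : ι → k) (w : ι → Cl 2 k) (s : ℤ), (∀ i j, i ≠ j → s(i, j) ≠ s(i₁, i₂) →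
      ‖E i - E j‖ = ‖π‖ ^ (2 * s)) → ‖E i₁ - E i₂‖ < ‖π‖ ^ (2 * s) → E i₁ ≠ E i₂ →
      PtData hk a E w → ∀ i, i ≠ i₁ → i ≠ i₂ → nu hk (w i) = 0)
    (hN2 : ∀ (D : K), D ≠ 0 → ∀ c : ZMod 2, f (cl 2 (φ D)) = (0, c) →
      ∑ j ∈ (univ.erase i₁).erase i₂, f (cl 2 (φ (D * e i₁ - D * e j))) = 0 →
      PtData hk a (fun i => φ (D * e i)) (fun j => if j = i₁ ∨ j = i₂ then cl 2 π else
        cl 2 (φ (D * e i₁ - D * e j))))
    (hL4 : ∀ (D : K), D ≠ 0 → PtData hk a (fun i => φ (D * e i))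
      (fun j => cl 2 (tt 2 a (fun i => φ (D * e i)) i₁ j)))
    (hS1 : ∀ c, ∀ w ∈ LocS hk φ f a e i₀ c, ∀ w' ∈ LocS hk φ f a e i₀ c, bG a i₀ w w' = 0)
    (hS2 : ∀ c, ∀ w ∈ LocS hk φ f a e i₀ c,
      qG a i₀ (fun i => ∑ m ∈ univ.erase i, f (cl 2 (φ (e i - e m)))) w = 0)
    (hS5 : ∑ i, ∑ m ∈ univ.erase i, f (cl 2 (φ (e i - e m))) = 0 ∧
      ∑ i, (∑ m ∈ univ.erase i, f (cl 2 (φ (e i - e m)))).1 *
        (∑ m ∈ univ.erase i, f (cl 2 (φ (e i - e m)))).2 = 0)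
    (hE2 : ∀ (g : ι → ZMod 2 × ZMod 2), ∑ i, g i = 0 → ∑ i, (g i).1 * (g i).2 = 0 →
      ∃ N : Submodule (ZMod 2) (LSG 2 i₀), finrank (ZMod 2) N = Fintype.card {j : ι // j ≠ i₀} ∧
        ∀ w ∈ N, qG a i₀ g w = 0)
    (hE3 : ∀ (g : ι → ZMod 2 × ZMod 2) (N : Submodule (ZMod 2) (LSG 2 i₀)),
      finrank (ZMod 2) N = Fintype.card {j : ι // j ≠ i₀} → (∀ w ∈ N, qG a i₀ g w = 0) →
      ∀ W : Set (LSG 2 i₀), (∀ w ∈ W, ∀ w' ∈ W, bG a i₀ w w' = 0) → (∀ w ∈ W, qG a i₀ g w = 0) →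
      ∃ M : Submodule (ZMod 2) (LSG 2 i₀), finrank (ZMod 2) M = Fintype.card {j : ι // j ≠ i₀} ∧
        (∀ w ∈ M, ∀ w' ∈ M, bG a i₀ w w' = 0) ∧ (∀ w ∈ M, qG a i₀ g w = 0) ∧ W ⊆ M) :
    ∃ M : ZMod 2 → Submodule (ZMod 2) (LSG 2 i₀), (∀ c,
      finrank (ZMod 2) (M c) = Fintype.card {j : ι // j ≠ i₀} ∧
      (∀ w ∈ M c, ∀ w' ∈ M c, bG a i₀ w w' = 0) ∧
      (∀ w ∈ M c, qG a i₀ (fun i => ∑ m ∈ univ.erase i, f (cl 2 (φ (e i - e m)))) w = 0) ∧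
      LocS hk φ f a e i₀ c ⊆ M c) ∧
      finrank (ZMod 2) (M 0 ⊓ M 1 : Submodule (ZMod 2) (LSG 2 i₀)) + 1 =
        Fintype.card {j : ι // j ≠ i₀} := by
  classical
  set g : ι → ZMod 2 × ZMod 2 := fun i => ∑ m ∈ univ.erase i, f (cl 2 (φ (e i - e m))) with hg
  set U := UU a i₀ (ha i₀) i₁ i₂ with hU
  -- first components of `g`
  have hd0 : ∀ i j, i ≠ j → s(i, j) ≠ s(i₁, i₂) → (f (cl 2 (φ (e i - e j)))).1 = 0 := by
    intro i j hij hs'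
    rw [hfo]
    exact nu_unit hk (h1 i j hij hs')
  have hg0 : ∀ i, i ≠ i₁ → i ≠ i₂ → (g i).1 = 0 := by
    intro i hi1 hi2
    rw [hg]
    show (∑ m ∈ univ.erase i, f (cl 2 (φ (e i - e m)))).1 = 0
    rw [Prod.fst_sum]
    refine sum_eq_zero fun m hm => hd0 i m (ne_of_mem_erase hm).symm ?_
    intro h
    rcases Sym2.eq_iff.1 h with h | h
    · exact hi1 h.1
    · exact hi2 h.1
  have hgs : ∀ x y : ι, x ≠ y → (∀ m, m ≠ x → m ≠ y → s(x, m) ≠ s(i₁, i₂)) →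
      (g x).1 = (f (cl 2 (φ (e x - e y)))).1 := by
    intro x y hxy hm
    rw [hg]
    show (∑ m ∈ univ.erase x, f (cl 2 (φ (e x - e m)))).1 = _
    rw [Prod.fst_sum, ← add_sum_erase (univ.erase x) _ (show y ∈ univ.erase x by
      rw [mem_erase]; exact ⟨hxy.symm, mem_univ _⟩), sum_eq_zero, add_zero]
    intro m hm'
    rw [mem_erase, mem_erase] at hm'
    exact hd0 x m hm'.2.1.symm (hm m hm'.2.1 hm'.1)
  have hg12 : (g i₁).1 = (g i₂).1 := by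
    rw [hgs i₁ i₂ hne ?_, hgs i₂ i₁ hne.symm ?_, ← neg_sub (e i₂) (e i₁), map_neg,
      cl_neg' hc (by rw [map_ne_zero]; exact sub_ne_zero.2 (he _ _ hne.symm))]
    · intro m hm1 hm2 h
      rcases Sym2.eq_iff.1 h with h | h
      · exact hne h.1.symm
      · exact hm2 h.2
    · intro m hm1 hm2 h
      rcases Sym2.eq_iff.1 h with h | h
      · exact hm2 h.2
      · exact hne h.1
  obtain ⟨N, hN, hNq⟩ := hE2 g hS5.1 hS5.2
  have hfst : ∀ c, ∀ w ∈ LocS hk φ f a e i₀ c, (∀ i, i ≠ i₁ → i ≠ i₂ → (exG a i₀ w i).1 = 0) ∧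
      (exG a i₀ w i₁).1 = (exG a i₀ w i₂).1 := fun c w hw =>
    fst_locS ha hfo he i₀ hne h1 h2 hN1 hw
  have hex : ∀ c : ZMod 2, ∃ M : Submodule (ZMod 2) (LSG 2 i₀),
      finrank (ZMod 2) M = Fintype.card {j : ι // j ≠ i₀} ∧
      (∀ w ∈ M, ∀ w' ∈ M, bG a i₀ w w' = 0) ∧ (∀ w ∈ M, qG a i₀ g w = 0) ∧
      (LocS hk φ f a e i₀ c ∪ (U : Set (LSG 2 i₀))) ⊆ M := by
    intro c
    refine hE3 g N hN hNq _ ?_ ?_
    · rintro w (hw | hw) w' (hw' | hw')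
      · exact hS1 c w hw w' hw'
      · exact bG_UU ha i₀ hne (hfst c w hw).1 (hfst c w hw).2 hw'
      · rw [bG_swap, bG_UU ha i₀ hne (hfst c w' hw').1 (hfst c w' hw').2 hw, neg_zero]
      · refine bG_UU ha i₀ hne (fun i _ _ => exG_UU hw i) ?_ hw'
        rw [exG_UU hw, exG_UU hw]
    · rintro w (hw | hw)
      · exact hS2 c w hw
      · exact qG_UU ha i₀ hne g hg0 hg12 hw
  choose M hM1 hM2 hM3 hM4 using hex
  refine ⟨M, fun c => ⟨hM1 c, hM2 c, hM3 c, fun w hw => hM4 c (Or.inl hw)⟩, ?_⟩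
  have hUM : ∀ c, U ≤ M c := fun c w hw => hM4 c (Or.inr hw)
  have hle : finrank (ZMod 2) U ≤ finrank (ZMod 2) (M 0 ⊓ M 1 : Submodule (ZMod 2) (LSG 2 i₀)) :=
    Submodule.finrank_mono (le_inf (hUM 0) (hUM 1))
  have hUd : Fintype.card {j : ι // j ≠ i₀} ≤ finrank (ZMod 2) U + 1 := finrank_UU (ha i₀) i₁ i₂
  have hlt : finrank (ZMod 2) (M 0 ⊓ M 1 : Submodule (ZMod 2) (LSG 2 i₀)) <
      Fintype.card {j : ι // j ≠ i₀} := by
    rw [← hM1 0]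
    refine Submodule.finrank_lt_finrank_of_lt (lt_of_le_of_ne inf_le_left fun h => ?_)
    have h01 : M 0 = M 1 := by
      refine Submodule.eq_of_le_of_finrank_eq (inf_eq_left.1 h) ?_
      rw [hM1, hM1]
    have hall : ∀ c, M c = M 0 := by
      intro c
      fin_cases c
      · rfl
      · exact h01.symm
    obtain ⟨c, w, hw, w', hw', hb⟩ := special ha hs hfo he i₀ hne h1 hcl hN2 hL4
    have hw1 : w ∈ M 0 := by
      rw [← hall c]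
      exact hM4 c (Or.inl hw)
    have hw1' : w' ∈ M 0 := by
      rw [← hall (c + 1)]
      exact hM4 (c + 1) (Or.inl hw')
    rw [hM2 0 w hw1 w' hw1'] at hb
    exact zero_ne_one hb
  omega

end LocSTwo

end Pool.Agent.Helper54.PT
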